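import Mathlib

set_option autoImplicit false

/-!
# Mealy automata
-/

namespace Pool.Agent.X227.WR

/-- A Mealy automaton with the set `Q` of states and the alphabet `A` (input and output). -/
structure Mealy (Q A : Type) where
  /-- the transition function -/
  dl : Q → A → Q
  /-- the output function -/
  lm : Q → A → A

namespace Mealy

variable {Q A : Type} (M : Mealy Q A)

/-- The state `q · u` reached from `q` after reading the word `u`. -/
def go : Q → List A → Q
  | q, [] => q
  | q, a :: u => go (M.dl q a) u

/-- The map computed from the state `q`. -/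
def out : Q → List A → List A
  | _, [] => []
  | q, a :: u => M.lm q a :: out (M.dl q a) u

/-- The word `u` is a reset word: the set `Q · u` has exactly one element. -/
def Syn (u : List A) : Prop := ∃ p : Q, Set.range (fun q => M.go q u) = {p}

/-- The automaton is weakly reset: it is synchronizing and there is a nonempty two-sided ideal `H`
of the free monoid which consists of reset words and is mapped into itself from every state. -/
def WeaklyReset : Prop :=
  (∃ u, M.Syn u) ∧ ∃ H : Set (List A), H.Nonempty ∧ (∀ u ∈ H, M.Syn u) ∧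
    (∀ x y : List A, ∀ u ∈ H, x ++ u ++ y ∈ H) ∧ ∀ q : Q, ∀ u ∈ H, M.out q u ∈ H

theorem go_append (q : Q) (u v : List A) : M.go q (u ++ v) = M.go (M.go q u) v := by
  induction u generalizing q with
  | nil => rfl
  | cons a u ih => exact ih _

theorem out_append (q : Q) (u v : List A) :
    M.out q (u ++ v) = M.out q u ++ M.out (M.go q u) v := by
  induction u generalizing q with
  | nil => rfl
  | cons a u ih =>
    change M.lm q a :: M.out (M.dl q a) (u ++ v) = _
    rw [ih]
    rfl

theorem out_length (q : Q) (u : List A) : (M.out q u).length = u.length := by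
  induction u generalizing q with
  | nil => rfl
  | cons a u ih =>
    change (M.out (M.dl q a) u).length + 1 = _
    rw [ih]
    rfl

/-- application of several states -/
def outs : List Q → List A → List A
  | [], u => u
  | q :: l, u => outs l (M.out q u)

theorem outs_append (l l' : List Q) (u : List A) : M.outs (l ++ l') u = M.outs l' (M.outs l u) := by
  induction l generalizing u with
  | nil => rfl
  | cons q l ih => exact ih _

theorem syn_ideal {u : List A} (h : M.Syn u) (x y : List A) : M.Syn (x ++ u ++ y) := by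
  obtain ⟨p, hp⟩ := h
  have hp' : ∀ q, M.go q u = p := fun q => by
    have : M.go q u ∈ Set.range (fun q => M.go q u) := ⟨q, rfl⟩
    rw [hp] at this
    exact this
  have hne : Nonempty Q := by
    have : p ∈ Set.range (fun q => M.go q u) := by rw [hp]; rfl
    exact ⟨this.choose⟩
  refine ⟨M.go p y, ?_⟩
  ext r
  constructor
  · rintro ⟨q, rfl⟩
    simp only [go_append, hp']
    rfl
  · rintro rfl
    obtain ⟨q⟩ := hne
    exact ⟨q, by simp only [go_append, hp']⟩

/-- sections of compositions -/
theorem outs_split (l : List Q) : ∀ x u y : List A, ∃ (x' y' : List A) (l' : List Q),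
    M.outs l (x ++ u ++ y) = x' ++ M.outs l' u ++ y' := by
  induction l with
  | nil => intro x u y; exact ⟨x, y, [], rfl⟩
  | cons q l ih =>
    intro x u y
    obtain ⟨x', y', l', h⟩ := ih (M.out q x) (M.out (M.go q x) u)
      (M.out (M.go q (x ++ u)) y)
    refine ⟨x', y', M.go q x :: l', ?_⟩
    change M.outs l (M.out q (x ++ u ++ y)) = _
    rw [out_append, out_append, h]
    rfl

/-- A word all images of which are reset words gives the weak reset property. -/
theorem weaklyReset_of {u : List A} (h : ∀ l : List Q, M.Syn (M.outs l u)) : M.WeaklyReset := by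
  refine ⟨⟨u, h []⟩, {w | ∀ l : List Q, M.Syn (M.outs l w)}, ⟨u, h⟩, fun w hw => hw [], ?_, ?_⟩
  · intro x y w hw l
    obtain ⟨x', y', l', e⟩ := M.outs_split l x w y
    rw [e]
    exact M.syn_ideal (hw l') x' y'
  · intro q w hw l
    exact hw (q :: l)

theorem outs_mem {H : Set (List A)} (hH : ∀ q : Q, ∀ u ∈ H, M.out q u ∈ H) (l : List Q) :
    ∀ u ∈ H, M.outs l u ∈ H := by
  induction l with
  | nil => intro u hu; exact hu
  | cons q l ih => intro u hu; exact ih _ (hH q u hu)

end Mealy

section transport

variable {Q A Q' A' : Type} {M : Mealy Q A} {M' : Mealy Q' A'} (e : Q ≃ Q') (f : A ≃ A')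
  (hd : ∀ q a, M'.dl (e q) (f a) = e (M.dl q a)) (hl : ∀ q a, M'.lm (e q) (f a) = f (M.lm q a))

include hd in
theorem go_map (u : List A) : ∀ q, M'.go (e q) (u.map f) = e (M.go q u) := by
  induction u with
  | nil => intro q; rfl
  | cons a u ih =>
    intro q
    change M'.go (M'.dl (e q) (f a)) (u.map f) = _
    rw [hd, ih]
    rfl

include hd hl in
theorem out_map (u : List A) : ∀ q, M'.out (e q) (u.map f) = (M.out q u).map f := by
  induction u with
  | nil => intro q; rfl
  | cons a u ih =>
    intro q
    change M'.lm (e q) (f a) :: M'.out (M'.dl (e q) (f a)) (u.map f) = _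
    rw [hd, hl, ih]
    rfl

include hd in
theorem syn_map {u : List A} (h : M.Syn u) : M'.Syn (u.map f) := by
  obtain ⟨p, hp⟩ := h
  refine ⟨e p, ?_⟩
  ext r
  constructor
  · rintro ⟨q, rfl⟩
    obtain ⟨q, rfl⟩ := e.surjective q
    simp only [go_map e f hd]
    have : M.go q u ∈ Set.range (fun q => M.go q u) := ⟨q, rfl⟩
    rw [hp] at this
    rw [Set.mem_singleton_iff] at this
    rw [this]
    rfl
  · rintro rfl
    have : p ∈ Set.range (fun q => M.go q u) := by rw [hp]; rfl
    obtain ⟨q, hq⟩ := this
    exact ⟨e q, by simp only [go_map e f hd]; exact congrArg e hq⟩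

include hd hl in
theorem weaklyReset_map (h : M.WeaklyReset) : M'.WeaklyReset := by
  obtain ⟨⟨u, hu⟩, H, ⟨w, hw⟩, h1, h2, h3⟩ := h
  refine ⟨⟨u.map f, syn_map e f hd hu⟩, (fun u => u.map f) '' H, ⟨_, ⟨w, hw, rfl⟩⟩, ?_, ?_, ?_⟩
  · rintro _ ⟨v, hv, rfl⟩
    exact syn_map e f hd (h1 v hv)
  · rintro x y _ ⟨v, hv, rfl⟩
    refine ⟨x.map f.symm ++ v ++ y.map f.symm, h2 _ _ v hv, ?_⟩
    simp
  · rintro q _ ⟨v, hv, rfl⟩
    obtain ⟨q, rfl⟩ := e.surjective q
    exact ⟨M.out q v, h3 q v hv, (out_map e f hd hl v q).symm⟩

include hd hl in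
theorem weaklyReset_iff : M.WeaklyReset ↔ M'.WeaklyReset := by
  constructor
  · exact weaklyReset_map e f hd hl
  · refine weaklyReset_map e.symm f.symm ?_ ?_
    · intro q a
      obtain ⟨q, rfl⟩ := e.surjective q
      obtain ⟨a, rfl⟩ := f.surjective a
      rw [hd]
      simp
    · intro q a
      obtain ⟨q, rfl⟩ := e.surjective q
      obtain ⟨a, rfl⟩ := f.surjective a
      rw [hl]
      simp

end transport

end Pool.Agent.X227.WR
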