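import Pool.Agent.X227.WR.Mealy
import Pool.Agent.X238.Osr.Mach

set_option autoImplicit false

/-!
# Cells that compute one step of a register machine
-/

namespace Pool.Agent.X227.WR

open Pool.Agent.X238.Osr Function

/-- letters of the streams -/
inductive Sq (Nd : Type) (K : ℕ) : Type
  | R
  | I
  | W
  | st (a : Nd)
  | bt (b : Fin (K + 1) → Bool)

/-- cells -/
inductive Fx (Nd : Type) (K : ℕ) : Type
  | w
  | ca (a : Nd)
  | cr (a : Nd) (b : Fin (K + 1) → Bool) (o : Bool)
  | s

variable {Nd : Type} {K : ℕ} (M : AM Nd K)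

/-- next state -/
def nst (a : Nd) (b : Fin (K + 1) → Bool) : Nd :=
  if M.hl a = true then a else M.nx a (decide (b (M.q a) = false))

/-- new bits -/
def nbo (j : Fin (K + 1)) (b c : Fin (K + 1) → Bool) (o : Bool) : Op → Fin (K + 1) → Bool
  | .keep => b
  | .inc => update b j o
  | .dec => update b j (c j)

/-- new bits -/
def nbt (a : Nd) (b c : Fin (K + 1) → Bool) (o : Bool) : Fin (K + 1) → Bool :=
  if M.hl a = true then b else nbo (M.q a) b c o (M.op a)

/-- what a cell sends -/
def dF : Sq Nd K → Fx Nd K → Sq Nd K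
  | _, .s => .I
  | .R, _ => .R
  | .I, _ => .I
  | .bt b, .ca a => .st (nst M a b)
  | .bt c, .cr a b o => .bt (nbt M a b c o)
  | _, _ => .W

/-- what a cell becomes -/
def lF : Sq Nd K → Fx Nd K → Fx Nd K
  | .st a, .s => if M.hl a = true then .s else .w
  | _, .s => .s
  | .I, c => c
  | .st a, .w => .ca a
  | .bt b, .ca a => .cr a b true
  | .bt c, .cr a b _ => .cr a c (b (M.q a))
  | _, _ => .w

/-- what the source sends -/
def oJ (x i : ℕ) : Sq Nd K :=
  if i = 0 then .st M.st else .bt fun j => decide (j = 0 ∧ i ≤ x)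

/-- what the source sends -/
def dJ (x i : ℕ) : Sq Nd K → Sq Nd K
  | .R => .R
  | .I => .I
  | _ => oJ M x i

/-- what the source becomes -/
def lJ (x i : ℕ) : Sq Nd K → ℕ
  | .R => 0
  | .I => min i (x + 1)
  | _ => min (i + 1) (x + 1)

theorem lJ_lt (x i : ℕ) (q : Sq Nd K) : lJ x i q < x + 2 := by
  cases q <;> simp only [lJ] <;> omega

/-- the automaton -/
def Ms (x : ℕ) : Mealy (Sq Nd K) (Fx Nd K ⊕ Fin (x + 2)) where
  dl q c := match c with
    | .inl c => dF M q c
    | .inr i => dJ M x i q
  lm q c := match c with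
    | .inl c => .inl (lF M q c)
    | .inr i => .inr ⟨lJ x i q, lJ_lt x i q⟩

/-! ### configurations -/

/-- one step -/
def stp (c : Nd × (Fin (K + 1) → ℕ)) : Nd × (Fin (K + 1) → ℕ) :=
  if M.hl c.1 = true then c else (M.ns c.1 c.2, M.nr c.1 c.2)

/-- the configurations -/
def cf (x : ℕ) : ℕ → Nd × (Fin (K + 1) → ℕ)
  | 0 => (M.st, rini x)
  | m + 1 => stp M (cf x m)

theorem hlt_iff (x : ℕ) : M.Hlt M.st (rini x) ↔ ∃ m, M.hl (cf M x m).1 = true := by
  have key : ∀ m, M.Hlt M.st (rini x) ↔ M.Hlt (cf M x m).1 (cf M x m).2 := by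
    intro m
    induction m with
    | zero => rfl
    | succ m ih =>
      rw [ih]
      change _ ↔ M.Hlt (stp M (cf M x m)).1 (stp M (cf M x m)).2
      unfold stp
      split_ifs with h
      · rfl
      · constructor
        · intro hh
          cases hh with
          | stop _ _ h' => exact absurd h' h
          | step _ _ _ h' => exact h'
        · intro hh
          exact .step _ _ (by simpa using h) hh
  constructor
  · intro h
    by_contra hc
    simp only [not_exists] at hc
    have : ∀ a n, M.Hlt a n → ∀ m, cf M x m = (a, n) → False := by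
      intro a n hh
      induction hh with
      | stop a n h =>
        intro m hm
        apply hc m
        rw [hm]
        exact h
      | step a n h _ ih =>
        intro m hm
        apply ih (m + 1)
        change stp M (cf M x m) = _
        rw [hm]
        simp [stp, h]
    exact this _ _ h 0 rfl
  · rintro ⟨m, hm⟩
    rw [key m]
    exact .stop _ _ hm

/-- bits -/
def B (x m k : ℕ) : Fin (K + 1) → Bool := fun j => decide (k ≤ (cf M x m).2 j)

/-- the stream of a configuration -/
def Y (x m t : ℕ) : Sq Nd K :=
  if t < m then .W else if t = m then .st (cf M x m).1 else .bt (B M x m (t - m))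

/-- the cell that reads this stream -/
def S (x m t : ℕ) : Fx Nd K :=
  if t ≤ m then .w else if t = m + 1 then .ca (cf M x m).1 else
    .cr (cf M x m).1 (B M x m (t - 1 - m)) (B M x m (t - 2 - m) (M.q (cf M x m).1))

theorem nst_eq (x m : ℕ) : nst M (cf M x m).1 (B M x m 1) = (cf M x (m + 1)).1 := by
  change _ = (stp M (cf M x m)).1
  unfold nst stp
  split_ifs with h
  · rfl
  · simp only [AM.ns, B]
    congr 1
    by_cases h0 : (cf M x m).2 (M.q (cf M x m).1) = 0
    · simp [h0]
    · have : 1 ≤ (cf M x m).2 (M.q (cf M x m).1) := by omega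
      simp [h0, this]

theorem nbo_eq (j : Fin (K + 1)) (n : Fin (K + 1) → ℕ) (k : ℕ) (hk : 1 ≤ k) (op : Op) :
    nbo j (fun i => decide (k ≤ n i)) (fun i => decide (k + 1 ≤ n i)) (decide (k - 1 ≤ n j)) op =
      fun i => decide (k ≤ update n j (op.ap (n j)) i) := by
  funext i
  cases op with
  | keep =>
    change decide (k ≤ n i) = decide (k ≤ update n j (n j) i)
    rw [update_eq_self]
  | inc =>
    change update (fun i => decide (k ≤ n i)) j (decide (k - 1 ≤ n j)) i =
      decide (k ≤ update n j (n j + 1) i)
    by_cases hj : i = j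
    · subst hj
      simp only [update_self, decide_eq_decide]
      omega
    · simp only [update_of_ne hj]
  | dec =>
    change update (fun i => decide (k ≤ n i)) j (decide (k + 1 ≤ n j)) i =
      decide (k ≤ update n j (n j - 1) i)
    by_cases hj : i = j
    · subst hj
      simp only [update_self, decide_eq_decide]
      omega
    · simp only [update_of_ne hj]

theorem nbt_eq (x m k : ℕ) (hk : 1 ≤ k) :
    nbt M (cf M x m).1 (B M x m k) (B M x m (k + 1)) (B M x m (k - 1) (M.q (cf M x m).1)) =
      B M x (m + 1) k := by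
  have e : B M x (m + 1) k = fun j => decide (k ≤ (stp M (cf M x m)).2 j) := rfl
  rw [e]
  unfold nbt stp
  split_ifs with h
  · rfl
  · exact nbo_eq _ _ k hk _

theorem cell_step (x m t : ℕ) : dF M (Y M x m t) (S M x m t) = Y M x (m + 1) t ∧
    lF M (Y M x m t) (S M x m t) = S M x m (t + 1) := by
  rcases lt_trichotomy t m with h | h | h
  · have e1 : Y M x m t = .W := by rw [Y, if_pos h]
    have e2 : S M x m t = .w := by rw [S, if_pos h.le]
    have e3 : Y M x (m + 1) t = .W := by rw [Y, if_pos (by omega)]
    have e4 : S M x m (t + 1) = .w := by rw [S, if_pos (by omega)]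
    rw [e1, e2, e3, e4]
    exact ⟨rfl, rfl⟩
  · subst h
    have e1 : Y M x t t = .st (cf M x t).1 := by rw [Y, if_neg (lt_irrefl _), if_pos rfl]
    have e2 : S M x t t = .w := by rw [S, if_pos le_rfl]
    have e3 : Y M x (t + 1) t = .W := by rw [Y, if_pos (by omega)]
    have e4 : S M x t (t + 1) = .ca (cf M x t).1 := by
      rw [S, if_neg (by omega), if_pos rfl]
    rw [e1, e2, e3, e4]
    exact ⟨rfl, rfl⟩
  · have e1 : Y M x m t = .bt (B M x m (t - m)) := by
      rw [Y, if_neg (by omega), if_neg (by omega)]
    rcases Nat.lt_or_ge t (m + 2) with h2 | h2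
    · obtain rfl : t = m + 1 := by omega
      have e2 : S M x m (m + 1) = .ca (cf M x m).1 := by
        rw [S, if_neg (by omega), if_pos rfl]
      have e3 : Y M x (m + 1) (m + 1) = .st (cf M x (m + 1)).1 := by
        rw [Y, if_neg (lt_irrefl _), if_pos rfl]
      have e4 : S M x m (m + 1 + 1) = .cr (cf M x m).1 (B M x m 1) true := by
        rw [S, if_neg (by omega), if_neg (by omega)]
        have a1 : m + 1 + 1 - 1 - m = 1 := by omega
        have a2 : m + 1 + 1 - 2 - m = 0 := by omega
        rw [a1, a2]
        congr 1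
      have a3 : m + 1 - m = 1 := by omega
      rw [e1, e2, e3, e4, a3]
      refine ⟨?_, rfl⟩
      change Sq.st (nst M (cf M x m).1 (B M x m 1)) = _
      rw [nst_eq]
    · have e2 : S M x m t = .cr (cf M x m).1 (B M x m (t - 1 - m))
          (B M x m (t - 2 - m) (M.q (cf M x m).1)) := by
        rw [S, if_neg (by omega), if_neg (by omega)]
      have e3 : Y M x (m + 1) t = .bt (B M x (m + 1) (t - (m + 1))) := by
        rw [Y, if_neg (by omega), if_neg (by omega)]
      have e4 : S M x m (t + 1) = .cr (cf M x m).1 (B M x m (t - m))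
          (B M x m (t - 1 - m) (M.q (cf M x m).1)) := by
        rw [S, if_neg (by omega), if_neg (by omega)]
        have a1 : t + 1 - 1 - m = t - m := by omega
        have a2 : t + 1 - 2 - m = t - 1 - m := by omega
        rw [a1, a2]
      rw [e1, e2, e3, e4]
      refine ⟨?_, rfl⟩
      change Sq.bt (nbt M (cf M x m).1 (B M x m (t - 1 - m)) (B M x m (t - m))
        (B M x m (t - 2 - m) (M.q (cf M x m).1))) = _
      have a1 : t - m = t - 1 - m + 1 := by omega
      have a2 : t - 2 - m = t - 1 - m - 1 := by omega
      have a3 : t - (m + 1) = t - 1 - m := by omega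
      rw [a1, a2, nbt_eq M x m _ (by omega), a3]

theorem src_step (x m t : ℕ) : dJ M x (min t (x + 1)) (Y M x m t) = Y M x 0 t ∧
    lJ x (min t (x + 1)) (Y M x m t) = min (t + 1) (x + 1) := by
  have h1 : ∀ q : Sq Nd K, q ≠ .R → q ≠ .I → dJ M x (min t (x + 1)) q = oJ M x (min t (x + 1)) ∧
      lJ x (min t (x + 1)) q = min (min t (x + 1) + 1) (x + 1) := by
    intro q hR hI
    cases q with
    | R => exact absurd rfl hR
    | I => exact absurd rfl hI
    | W => exact ⟨rfl, rfl⟩
    | st a => exact ⟨rfl, rfl⟩
    | bt b => exact ⟨rfl, rfl⟩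
  have h2 : Y M x m t ≠ .R ∧ Y M x m t ≠ .I := by
    unfold Y
    split_ifs <;> simp
  obtain ⟨e1, e2⟩ := h1 _ h2.1 h2.2
  rw [e1, e2]
  constructor
  · unfold oJ Y
    by_cases h0 : t = 0
    · subst h0
      simp [cf]
    · have a1 : min t (x + 1) ≠ 0 := by omega
      rw [if_neg a1, if_neg (by omega), if_neg h0]
      congr 1
      funext j
      simp only [B, cf, rini, decide_eq_decide]
      by_cases hj : j = 0
      · simp only [hj, true_and, if_true]
        omega
      · simp only [hj, false_and, if_false, false_iff]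
        omega
  · omega

/-! ### words of cells -/

/-- the cells at time `t` -/
def evo (x : ℕ) : ℕ → ℕ → List Bool → List (Fx Nd K ⊕ Fin (x + 2))
  | _, _, [] => []
  | _, t, true :: l => .inr ⟨min t (x + 1), by omega⟩ :: evo x 0 t l
  | m, t, false :: l => .inl (S M x m t) :: evo x (m + 1) t l

/-- the index of the last stream -/
def lst : ℕ → List Bool → ℕ
  | m, [] => m
  | _, true :: l => lst 0 l
  | m, false :: l => lst (m + 1) l

theorem evo_step (x : ℕ) (l : List Bool) : ∀ m t : ℕ,
    (Ms M x).out (Y M x m t) (evo M x m t l) = evo M x m (t + 1) l ∧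
    (Ms M x).go (Y M x m t) (evo M x m t l) = Y M x (lst m l) t := by
  induction l with
  | nil => intro m t; exact ⟨rfl, rfl⟩
  | cons b l ih =>
    intro m t
    cases b with
    | true =>
      obtain ⟨e1, e2⟩ := src_step M x m t
      obtain ⟨e3, e4⟩ := ih 0 t
      constructor
      · change Sum.inr (⟨lJ x (min t (x + 1)) (Y M x m t), _⟩ : Fin (x + 2)) ::
          (Ms M x).out (dJ M x (min t (x + 1)) (Y M x m t)) (evo M x 0 t l) =
          Sum.inr (⟨min (t + 1) (x + 1), _⟩ : Fin (x + 2)) :: evo M x 0 (t + 1) l
        rw [e1, e3]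
        congr 3
      · change (Ms M x).go (dJ M x (min t (x + 1)) (Y M x m t)) (evo M x 0 t l) = _
        rw [e1, e4]
        rfl
    | false =>
      obtain ⟨e1, e2⟩ := cell_step M x m t
      obtain ⟨e3, e4⟩ := ih (m + 1) t
      constructor
      · change Sum.inl (lF M (Y M x m t) (S M x m t)) ::
          (Ms M x).out (dF M (Y M x m t) (S M x m t)) (evo M x (m + 1) t l) = _
        rw [e1, e2, e3]
        rfl
      · change (Ms M x).go (dF M (Y M x m t) (S M x m t)) (evo M x (m + 1) t l) = _
        rw [e1, e4]
        rfl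

theorem S_ne (x m t : ℕ) : S M x m t ≠ .s := by
  unfold S
  split_ifs <;> simp

theorem dF_R {c : Fx Nd K} (h : c ≠ .s) : dF M .R c = .R ∧ lF M .R c = .w := by
  cases c with
  | s => exact absurd rfl h
  | w => exact ⟨rfl, rfl⟩
  | ca a => exact ⟨rfl, rfl⟩
  | cr a b o => exact ⟨rfl, rfl⟩

theorem dF_s (q : Sq Nd K) : dF M q .s = .I := by
  cases q <;> rfl

theorem dF_I {c : Fx Nd K} (h : c ≠ .s) : dF M .I c = .I ∧ lF M .I c = c := by
  cases c with
  | s => exact absurd rfl h
  | w => exact ⟨rfl, rfl⟩
  | ca a => exact ⟨rfl, rfl⟩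
  | cr a b o => exact ⟨rfl, rfl⟩

theorem lF_I (c : Fx Nd K) : dF M .I c = .I ∧ lF M .I c = c := by
  cases c with
  | s => exact ⟨rfl, rfl⟩
  | w => exact ⟨rfl, rfl⟩
  | ca a => exact ⟨rfl, rfl⟩
  | cr a b o => exact ⟨rfl, rfl⟩

theorem out_I (x : ℕ) (u : List (Fx Nd K ⊕ Fin (x + 2))) :
    (Ms M x).out .I u = u ∧ (Ms M x).go .I u = .I := by
  induction u with
  | nil => exact ⟨rfl, rfl⟩
  | cons c u ih =>
    cases c with
    | inl c =>
      obtain ⟨e1, e2⟩ := lF_I M c
      constructor
      · change Sum.inl (lF M .I c) :: (Ms M x).out (dF M .I c) u = _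
        rw [e1, e2, ih.1]
      · change (Ms M x).go (dF M .I c) u = _
        rw [e1, ih.2]
    | inr i =>
      constructor
      · change Sum.inr (⟨min (i : ℕ) (x + 1), _⟩ : Fin (x + 2)) :: (Ms M x).out .I u = _
        rw [ih.1]
        congr 2
        apply Fin.ext
        have := i.2
        simp only
        omega
      · exact ih.2

/-- the kinds of the cells -/
def lab (x : ℕ) (u : List (Fx Nd K ⊕ Fin (x + 2))) : List Bool :=
  u.map fun c => match c with
    | .inl _ => false
    | .inr _ => true

theorem out_R (x : ℕ) (u : List (Fx Nd K ⊕ Fin (x + 2))) (hu : Sum.inl .s ∉ u) :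
    ∀ m, (Ms M x).out .R u = evo M x m 0 (lab x u) ∧ (Ms M x).go .R u = .R := by
  induction u with
  | nil => intro m; exact ⟨rfl, rfl⟩
  | cons c u ih =>
    intro m
    simp only [List.mem_cons, not_or] at hu
    cases c with
    | inl c =>
      have hc : c ≠ .s := fun e => hu.1 (by rw [e])
      obtain ⟨e1, e2⟩ := dF_R M hc
      obtain ⟨e3, e4⟩ := ih hu.2 (m + 1)
      constructor
      · change Sum.inl (lF M .R c) :: (Ms M x).out (dF M .R c) u =
          Sum.inl (S M x m 0) :: evo M x (m + 1) 0 (lab x u)
        rw [e1, e2, e3]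
        congr 1
      · change (Ms M x).go (dF M .R c) u = _
        rw [e1, e4]
    | inr i =>
      obtain ⟨e3, e4⟩ := ih hu.2 0
      constructor
      · change Sum.inr (⟨0, _⟩ : Fin (x + 2)) :: (Ms M x).out .R u =
          Sum.inr (⟨min 0 (x + 1), _⟩ : Fin (x + 2)) :: evo M x 0 0 (lab x u)
        rw [e3]
        congr 3
      · exact e4

theorem lab_evo (x : ℕ) (l : List Bool) : ∀ m t, lab x (evo M x m t l) = l := by
  induction l with
  | nil => intro m t; rfl
  | cons b l ih =>
    intro m t
    cases b with
    | true =>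
      change true :: lab x (evo M x 0 t l) = _
      rw [ih]
    | false =>
      change false :: lab x (evo M x (m + 1) t l) = _
      rw [ih]

theorem s_notMem_evo (x : ℕ) (l : List Bool) : ∀ m t, Sum.inl .s ∉ evo M x m t l := by
  induction l with
  | nil => intro m t; simp [evo]
  | cons b l ih =>
    intro m t
    cases b with
    | true => simp [evo, ih]
    | false =>
      simp only [evo, List.mem_cons, Sum.inl.injEq, not_or]
      exact ⟨fun e => S_ne M x m t e.symm, ih _ _⟩

theorem lst_rep (m n : ℕ) : lst n (List.replicate m false) = n + m := by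
  induction m generalizing n with
  | zero => rfl
  | succ m ih =>
    rw [List.replicate_succ]
    change lst (n + 1) (List.replicate m false) = _
    rw [ih]
    omega

/-- If the machine halts then the automaton is weakly reset. -/
theorem halts_weaklyReset {x m : ℕ} (h : M.hl (cf M x m).1 = true) : (Ms M x).WeaklyReset := by
  set L : List Bool := true :: List.replicate m false with hL
  have hlst : lst 0 L = m := by
    change lst 0 (List.replicate m false) = m
    rw [lst_rep]
    omega
  let Wd : ℕ → List (Fx Nd K ⊕ Fin (x + 2)) := fun t => evo M x 0 t L ++ [.inl .s]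
  have hS : ∀ t, lF M (Y M x m t) .s = .s := by
    intro t
    unfold Y
    split_ifs with h1 h2
    · rfl
    · simp [lF, h]
    · rfl
  have hY : ∀ t, (Ms M x).out (Y M x 0 t) (Wd t) = Wd (t + 1) := by
    intro t
    obtain ⟨e1, e2⟩ := evo_step M x L 0 t
    simp only [Wd]
    rw [Mealy.out_append, e1, e2, hlst]
    change _ ++ [Sum.inl (lF M (Y M x m t) .s)] = _
    rw [hS]
  have hstep : ∀ (q : Sq Nd K) (t : ℕ), ∃ t', (Ms M x).out q (Wd t) = Wd t' := by
    intro q t
    have hclk : q ≠ .R → q ≠ .I → (Ms M x).out q (Wd t) = Wd (t + 1) := by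
      intro h1 h2
      rw [← hY t]
      have : ∀ q' : Sq Nd K, q' ≠ .R → q' ≠ .I → (Ms M x).out q' (Wd t) =
          Sum.inr (⟨min (min t (x + 1) + 1) (x + 1), by omega⟩ : Fin (x + 2)) ::
            (Ms M x).out (oJ M x (min t (x + 1)))
              (evo M x 0 t (List.replicate m false) ++ [.inl .s]) := by
        intro q' h1 h2
        cases q' with
        | R => exact absurd rfl h1
        | I => exact absurd rfl h2
        | W => rfl
        | st a => rfl
        | bt b => rfl
      rw [this q h1 h2, this (Y M x 0 t)]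
      · unfold Y
        split_ifs <;> simp
      · unfold Y
        split_ifs <;> simp
    cases q with
    | R =>
      refine ⟨0, ?_⟩
      obtain ⟨e1, e2⟩ := out_R M x (evo M x 0 t L) (s_notMem_evo M x L 0 t) 0
      simp only [Wd]
      rw [Mealy.out_append, e1, e2, lab_evo]
      rfl
    | I => exact ⟨t, (out_I M x _).1⟩
    | W => exact ⟨_, hclk (by simp) (by simp)⟩
    | st a => exact ⟨_, hclk (by simp) (by simp)⟩
    | bt b => exact ⟨_, hclk (by simp) (by simp)⟩
  have hall : ∀ (l : List (Sq Nd K)) (t : ℕ), ∃ t', (Ms M x).outs l (Wd t) = Wd t' := by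
    intro l
    induction l with
    | nil => intro t; exact ⟨t, rfl⟩
    | cons q l ih =>
      intro t
      obtain ⟨t', ht'⟩ := hstep q t
      obtain ⟨t'', ht''⟩ := ih t'
      refine ⟨t'', ?_⟩
      change (Ms M x).outs l ((Ms M x).out q (Wd t)) = _
      rw [ht', ht'']
  refine Mealy.weaklyReset_of (u := Wd 0) _ fun l => ?_
  obtain ⟨t, ht⟩ := hall l 0
  rw [ht]
  refine ⟨.I, ?_⟩
  have : ∀ q, (Ms M x).go q (Wd t) = .I := by
    intro q
    simp only [Wd]
    rw [Mealy.go_append]
    change dF M ((Ms M x).go q (evo M x 0 t L)) .s = .I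
    exact dF_s M _
  ext r
  simp only [this, Set.mem_range, Set.mem_singleton_iff]
  constructor
  · rintro ⟨_, rfl⟩; rfl
  · rintro rfl; exact ⟨.I, rfl⟩

/-- If the machine does not halt then the automaton is not weakly reset. -/
theorem weaklyReset_halts {x : ℕ} (h : ∀ m, M.hl (cf M x m).1 = false) :
    ¬ (Ms M x).WeaklyReset := by
  classical
  rintro ⟨_, H, ⟨u₀, hu₀⟩, h1, _, h3⟩
  have key : ∀ n : ℕ, ∀ u ∈ H, u.countP (fun c => decide (c = Sum.inl .s)) ≤ n → False := by
    intro n
    induction n with
    | zero =>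
      intro u hu hn
      have hs : Sum.inl .s ∉ u := by
        intro hm
        have h9 : 0 < u.countP (fun c => decide (c = Sum.inl .s)) :=
          List.countP_pos_iff.2 ⟨_, hm, by simp⟩
        omega
      obtain ⟨p, hp⟩ := h1 u hu
      have a1 : (Ms M x).go .R u ∈ ({p} : Set (Sq Nd K)) := by rw [← hp]; exact ⟨_, rfl⟩
      have a2 : (Ms M x).go .I u ∈ ({p} : Set (Sq Nd K)) := by rw [← hp]; exact ⟨_, rfl⟩
      rw [(out_R M x u hs 0).2] at a1
      rw [(out_I M x u).2] at a2
      rw [Set.mem_singleton_iff] at a1 a2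
      rw [← a1] at a2
      cases a2
    | succ n ih =>
      intro u hu hn
      by_cases hs : Sum.inl .s ∈ u
      · obtain ⟨v, z, rfl, hv⟩ : ∃ v z, u = v ++ Sum.inl .s :: z ∧ Sum.inl .s ∉ v :=
          List.eq_append_cons_of_mem hs
        set L := lab x v with hL
        have w0 : evo M x 0 0 L ++ Sum.inl .s :: z ∈ H := by
          have := h3 .R _ hu
          rw [Mealy.out_append, (out_R M x v hv 0).1, (out_R M x v hv 0).2] at this
          have e : (Ms M x).out .R (Sum.inl .s :: z) = Sum.inl .s :: z := by
            change Sum.inl (lF M .R .s) :: (Ms M x).out .I z = _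
            rw [(out_I M x z).1]
            rfl
          rwa [e] at this
        set m := lst 0 L with hm
        have wt : ∀ t, t ≤ m → evo M x 0 t L ++ Sum.inl .s :: z ∈ H := by
          intro t
          induction t with
          | zero => intro _; exact w0
          | succ t iht =>
            intro ht
            have := h3 (Y M x 0 t) _ (iht (by omega))
            obtain ⟨e1, e2⟩ := evo_step M x L 0 t
            rw [Mealy.out_append, e1, e2] at this
            have e : (Ms M x).out (Y M x (lst 0 L) t) (Sum.inl .s :: z) = Sum.inl .s :: z := by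
              have e0 : Y M x (lst 0 L) t = .W := by rw [Y, if_pos (by omega)]
              rw [e0]
              change Sum.inl (lF M .W .s) :: (Ms M x).out .I z = _
              rw [(out_I M x z).1]
              rfl
            rwa [e] at this
        have w1 := h3 (Y M x 0 m) _ (wt m le_rfl)
        obtain ⟨e1, e2⟩ := evo_step M x L 0 m
        rw [Mealy.out_append, e1, e2] at w1
        have e : (Ms M x).out (Y M x (lst 0 L) m) (Sum.inl .s :: z) = Sum.inl .w :: z := by
          have e0 : Y M x (lst 0 L) m = .st (cf M x m).1 := by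
            rw [← hm, Y, if_neg (lt_irrefl _), if_pos rfl]
          rw [e0]
          change Sum.inl (lF M (.st (cf M x m).1) .s) :: (Ms M x).out .I z = _
          rw [(out_I M x z).1]
          congr 2
          simp [lF, h m]
        rw [e] at w1
        refine ih _ w1 ?_
        rw [List.countP_append, List.countP_cons] at hn ⊢
        have c1 : (evo M x 0 (m + 1) L).countP (fun c => decide (c = Sum.inl .s)) = 0 := by
          rw [List.countP_eq_zero]
          intro a ha
          simp only [decide_eq_true_eq]
          rintro rfl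
          exact s_notMem_evo M x L 0 (m + 1) ha
        rw [c1]
        simp at hn ⊢
        omega
      · refine ih u hu ?_
        have : u.countP (fun c => decide (c = Sum.inl .s)) = 0 := by
          rw [List.countP_eq_zero]
          intro a ha
          simp only [decide_eq_true_eq]
          rintro rfl
          exact hs ha
        omega
  exact key _ u₀ hu₀ le_rfl

end Pool.Agent.X227.WR
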